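import Mathlib
import Pool.Agent.W931.KH.CC
import Pool.Agent.W931.KH.Stmt

set_option autoImplicit false

/-!
# A product of Levy collapses below measurable cardinals: definitions
-/

namespace Pool.Agent.W931.LC

open Cardinal Pool.Agent.Helper669.Forcing Pool.Agent.Helper669.K Pool.Agent.Helper669.U
  Pool.Agent.Helper669.V Pool.Agent.W931.KH

/-- The index set: the ordinals below `ω₁`. -/
abbrev I : Type := (ℵ₁ : Cardinal.{0}).ord.ToType

/-- A condition of the Levy collapse of all ordinals below `ka` to `mu`: a partial function `f`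
of size less than `mu` from `ka × mu` to `ka`, with `f (a, x) < a`. -/
@[ext] structure Co (mu ka : Cardinal.{0}) where
  f : ka.ord.ToType → mu.ord.ToType → Option ka.ord.ToType
  small : #{z : ka.ord.ToType × mu.ord.ToType // f z.1 z.2 ≠ none} < mu
  reg : ∀ a x b, f a x = some b → b < a

instance (mu ka : Cardinal.{0}) : Preorder (Co mu ka) where
  le q p := ∀ a x b, p.f a x = some b → q.f a x = some b
  le_refl _ _ _ _ h := h
  le_trans _ _ _ h h' a x b hb := h a x b (h' a x b hb)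

theorem Co.le_def {mu ka : Cardinal.{0}} {q p : Co mu ka} :
    q ≤ p ↔ ∀ a x b, p.f a x = some b → q.f a x = some b := Iff.rfl

/-- An increasing sequence of measurable cardinals of length `ω₁`, with normal measures. -/
structure Par where
  ka : I → Cardinal.{0}
  mono : StrictMono ka
  unc : ∀ j, ℵ₀ < ka j
  reg : ∀ j, (ka j).IsRegular
  strong : ∀ j, ∀ ν < ka j, (2 : Cardinal.{0}) ^ ν < ka j
  U : ∀ j, Ultrafilter (ka j).ord.ToType
  comp : ∀ j (ι : Type), #ι < ka j → ∀ A : ι → Set (ka j).ord.ToType, (∀ i, A i ∈ U j) →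
    (⋂ i, A i) ∈ U j
  tail : ∀ j a, {x | a < x} ∈ U j
  norm : ∀ j (g : (ka j).ord.ToType → (ka j).ord.ToType), {x | g x < x} ∈ U j →
    ∃ a, {x | g x = a} ∈ U j

variable (Q : Par)

/-- The supremum of the earlier cardinals (and of `ℵ₁`). -/
noncomputable def Par.lam (j : I) : Cardinal.{0} := max ℵ₁ (⨆ i : Set.Iio j, Q.ka i)

/-- The supremum of all the cardinals; it becomes `ℵ_{ω₁}`. -/
noncomputable def Par.top : Cardinal.{0} := ⨆ j, Q.ka j

/-- The cardinals below `Q.ka j` are collapsed to `Q.mu j`. -/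
noncomputable def Par.mu (j : I) : Cardinal.{0} := Order.succ (Order.succ (Order.succ (Q.lam j)))

/-- The forcing: the product of the Levy collapses, with full support. -/
abbrev Par.Cd : Type := ∀ j : I, Co (Q.mu j) (Q.ka j)

/-- A condition `c` of the collapse together with a measure one set `Z` of points `b` above `c`,
and conditions `s b` above `b`. -/
structure Pt (mu ka : Cardinal.{0}) (U : Ultrafilter ka.ord.ToType) where
  c : Co mu ka
  Z : Set ka.ord.ToType
  hZ : Z ∈ U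
  s : ka.ord.ToType → Co mu ka
  lo : ∀ b ∈ Z, ∀ a x, b ≤ a → c.f a x = none
  hi : ∀ b a x, a < b → (s b).f a x = none

instance (mu ka : Cardinal.{0}) (U : Ultrafilter ka.ord.ToType) : Preorder (Pt mu ka U) where
  le q p := q.c ≤ p.c ∧ q.Z ⊆ p.Z ∧ ∀ b ∈ q.Z, q.s b ≤ p.s b
  le_refl p := ⟨le_rfl, subset_rfl, fun _ _ => le_rfl⟩
  le_trans _ _ _ h h' := ⟨h.1.trans h'.1, h.2.1.trans h'.2.1,
    fun b hb => (h.2.2 b hb).trans (h'.2.2 b (h.2.1 hb))⟩

/-- The combined conditions. -/
abbrev Par.Ex : Type := ∀ j : I, Pt (Q.mu j) (Q.ka j) (Q.U j)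

theorem Par.lam_ge (j : I) : ℵ₁ ≤ Q.lam j := le_max_left _ _

theorem Par.aleph0_le_lam (j : I) : ℵ₀ ≤ Q.lam j := (aleph0_le_aleph 1).trans (Q.lam_ge j)

theorem Par.ka_le_lam {i j : I} (h : i < j) : Q.ka i ≤ Q.lam j :=
  (le_ciSup (f := fun i : Set.Iio j => Q.ka i) (Cardinal.bddAbove_of_small) ⟨i, h⟩).trans
    (le_max_right _ _)

theorem Par.lam_lt_mu (j : I) : Q.lam j < Q.mu j :=
  (Order.lt_succ _).trans ((Order.lt_succ _).trans (Order.lt_succ _))

theorem Par.aleph0_le_mu (j : I) : ℵ₀ ≤ Q.mu j := (Q.aleph0_le_lam j).trans (Q.lam_lt_mu j).le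

theorem Par.mu_reg (j : I) : (Q.mu j).IsRegular :=
  Cardinal.isRegular_succ (((Q.aleph0_le_lam j).trans (Order.le_succ _)).trans (Order.le_succ _))

theorem Par.ka_lt_mu {i j : I} (h : i < j) : Q.ka i < Q.mu j := (Q.ka_le_lam h).trans_lt (Q.lam_lt_mu j)

theorem Par.aleph1_lt_ka (j : I) : ℵ₁ < Q.ka j := by
  have h1 := Q.strong j ℵ₀ (Q.unc j)
  have h2 : (ℵ₁ : Cardinal.{0}) ≤ 2 ^ (ℵ₀ : Cardinal.{0}) := by
    rw [← succ_aleph0]
    exact Order.succ_le_of_lt (Cardinal.cantor _)
  exact h2.trans_lt h1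

theorem Par.lam_lt_ka (j : I) : Q.lam j < Q.ka j := by
  refine max_lt (Q.aleph1_lt_ka j) ?_
  have h1 : #(Set.Iio j) < Q.ka j := by
    have h2 : #(Set.Iio j) < ℵ₁ := by simpa using Cardinal.mk_Iio_lt j
    exact h2.trans (Q.aleph1_lt_ka j)
  refine Cardinal.iSup_lt_of_isRegular (Q.reg j) h1 ?_
  intro i
  exact Q.mono i.2

theorem Par.succ_lt_ka (j : I) {ν : Cardinal.{0}} (h : ν < Q.ka j) : Order.succ ν < Q.ka j :=
  (Order.succ_le_of_lt (Cardinal.cantor ν)).trans_lt (Q.strong j ν h)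

theorem Par.mu_lt_ka (j : I) : Q.mu j < Q.ka j :=
  Q.succ_lt_ka j (Q.succ_lt_ka j (Q.succ_lt_ka j (Q.lam_lt_ka j)))

theorem Par.mu_mono {i j : I} (h : i < j) : Q.mu i < Q.mu j := (Q.mu_lt_ka i).trans (Q.ka_lt_mu h)

theorem Par.ka_le_top (j : I) : Q.ka j ≤ Q.top := le_ciSup (Cardinal.bddAbove_of_small) j

/-- The order of `I` has no last element. -/
theorem exists_gt_I (j : I) : ∃ i, j < i := by
  have h : NoMaxOrder I := Cardinal.noMaxOrder (aleph0_le_aleph 1)
  exact exists_gt j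

theorem Par.ka_lt_top (j : I) : Q.ka j < Q.top := by
  obtain ⟨i, hi⟩ := exists_gt_I j
  exact (Q.mono hi).trans_le (Q.ka_le_top i)

theorem Par.exists_lt_ka {ν : Cardinal.{0}} (h : ν < Q.top) : ∃ j, ν < Q.ka j := by
  have : Nonempty I := by
    rw [← Cardinal.mk_ne_zero_iff, mk_ord_toType]
    exact (aleph0_pos.trans_le (aleph0_le_aleph 1)).ne'
  exact exists_lt_of_lt_ciSup h

/-- Sets of fewer than `c` elements are bounded. -/
theorem bdd_ord {c : Cardinal.{0}} (hc : c.IsRegular) (A : Set c.ord.ToType) (hA : #A < c) :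
    ∃ b, ∀ a ∈ A, a < b := by
  have h1 : Order.cof c.ord.ToType = c := by
    rw [Ordinal.cof_toType, hc.cof_ord]
  have h2 : ¬ IsCofinal A := by
    intro h
    have h3 := Order.cof_le h
    rw [h1] at h3
    exact absurd h3 (not_le.2 hA)
  rw [IsCofinal] at h2
  push Not at h2
  exact h2

/-! ### Closure -/

/-- Decreasing sequences of length less than `mu` in the Levy collapse have lower bounds. -/
theorem Co.exists_inf {mu ka : Cardinal.{0}} (hmu : mu.IsRegular) {J : Type} [LinearOrder J]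
    (hJ : #J < mu) (p : J → Co mu ka) (hp : ∀ j j', j ≤ j' → p j' ≤ p j) :
    ∃ q : Co mu ka, (∀ j, q ≤ p j) ∧ ∀ a x, (∀ j, (p j).f a x = none) → q.f a x = none := by
  classical
  refine ⟨⟨fun a x => if h : ∃ j, (p j).f a x ≠ none then (p h.choose).f a x else none, ?_, ?_⟩,
    ?_, ?_⟩
  · have h1 : #(Σ j, {z : ka.ord.ToType × mu.ord.ToType // (p j).f z.1 z.2 ≠ none}) < mu := by
      rw [Cardinal.mk_sigma]
      exact Cardinal.sum_lt_of_isRegular hmu hJ fun j => (p j).small
    refine lt_of_le_of_lt ?_ h1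
    have h2 : ∀ z : {z : ka.ord.ToType × mu.ord.ToType // (if h : ∃ j, (p j).f z.1 z.2 ≠ none then
        (p h.choose).f z.1 z.2 else none) ≠ none}, ∃ j, (p j).f z.1.1 z.1.2 ≠ none := by
      intro z
      by_contra hcon
      apply z.2
      rw [dif_neg hcon]
    choose g hg using h2
    refine Cardinal.mk_le_of_injective (f := fun z => ⟨g z, ⟨z.1, hg z⟩⟩) ?_
    intro z z' h
    have h3 : ∀ (j j' : J) (a : {z : ka.ord.ToType × mu.ord.ToType // (p j).f z.1 z.2 ≠ none})
        (a' : {z : ka.ord.ToType × mu.ord.ToType // (p j').f z.1 z.2 ≠ none}), j = j' → HEq a a' →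
        a.1 = a'.1 := by
      rintro j _ a a' rfl h
      rw [eq_of_heq h]
    simp only [Sigma.mk.injEq] at h
    exact Subtype.ext (h3 _ _ _ _ h.1 h.2)
  · intro a x b h
    by_cases h2 : ∃ j, (p j).f a x ≠ none
    · rw [dif_pos h2] at h
      exact (p _).reg a x b h
    · rw [dif_neg h2] at h
      exact absurd h (by simp)
  · intro j a x b hb
    have h2 : ∃ j, (p j).f a x ≠ none := ⟨j, by rw [hb]; simp⟩
    show (if h : ∃ j, (p j).f a x ≠ none then (p h.choose).f a x else none) = some b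
    rw [dif_pos h2]
    rcases le_total j h2.choose with h | h
    · exact hp _ _ h a x b hb
    · obtain ⟨c, hc⟩ := Option.ne_none_iff_exists'.1 h2.choose_spec
      have h3 := hp _ _ h a x c hc
      rw [hb] at h3
      rw [hc, h3]
  · intro a x h
    show (if h : ∃ j, (p j).f a x ≠ none then (p h.choose).f a x else none) = none
    rw [dif_neg]
    rintro ⟨j, hj⟩
    exact hj (h j)

theorem Co.seqClosed {mu ka : Cardinal.{0}} (hmu : mu.IsRegular) : SeqClosed mu (Co mu ka) := by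
  intro J _ _ hJ p hp
  obtain ⟨q, hq, _⟩ := Co.exists_inf hmu hJ p hp
  exact ⟨q, hq⟩

/-- The forcing of the coordinates in `A` is `χ`-closed if `χ ≤ mu j` for `j ∈ A`. -/
theorem Par.seqClosed {A : Set I} {χ : Cardinal.{0}} (h : ∀ j ∈ A, χ ≤ Q.mu j) :
    SeqClosed χ (∀ j : A, Co (Q.mu j) (Q.ka j)) := by
  intro J _ hne hJ p hp
  have h1 : ∀ j : A, ∃ q : Co (Q.mu j) (Q.ka j), ∀ i, q ≤ p i j := fun j =>
    Co.seqClosed (Q.mu_reg j) J hne (hJ.trans_le (h j j.2)) (fun i => p i j)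
      (fun i i' hi => hp i i' hi j)
  choose q hq using h1
  exact ⟨q, fun i j => hq j i⟩

theorem Par.seqClosed_Cd (j0 : I) (h : ∀ j, j0 ≤ j) : SeqClosed (Q.mu j0) Q.Cd := by
  intro J _ hne hJ p hp
  have h1 : ∀ j : I, ∃ q : Co (Q.mu j) (Q.ka j), ∀ i, q ≤ p i j := fun j =>
    Co.seqClosed (Q.mu_reg j) J hne (hJ.trans_le (by
      rcases eq_or_lt_of_le (h j) with rfl | h2
      · exact le_rfl
      · exact (Q.mu_mono h2).le)) (fun i => p i j) (fun i i' hi => hp i i' hi j)
  choose q hq using h1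
  exact ⟨q, fun i j => hq j i⟩

/-- Decreasing sequences of length less than `mu` of combined conditions have lower bounds. -/
theorem Pt.seqClosed {mu ka : Cardinal.{0}} {U : Ultrafilter ka.ord.ToType} (hmu : mu.IsRegular)
    (hmk : mu ≤ ka) (hU : ∀ (ι : Type), #ι < ka → ∀ A : ι → Set ka.ord.ToType,
      (∀ i, A i ∈ U) → (⋂ i, A i) ∈ U) : SeqClosed mu (Pt mu ka U) := by
  classical
  intro J _ hne hJ p hp
  obtain ⟨c, hc, hc0⟩ := Co.exists_inf hmu hJ (fun j => (p j).c) (fun j j' h => (hp j j' h).1)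
  have h1 : ∀ b, ∃ s : Co mu ka, (b ∈ (⋂ j, (p j).Z) → ∀ j, s ≤ (p j).s b) ∧
      ∀ a x, a < b → s.f a x = none := by
    intro b
    by_cases hb : b ∈ ⋂ j, (p j).Z
    · have hb' : ∀ j, b ∈ (p j).Z := fun j => Set.mem_iInter.1 hb j
      obtain ⟨s, hs, hs0⟩ := Co.exists_inf hmu hJ (fun j => (p j).s b)
        (fun j j' h => (hp j j' h).2.2 b (hb' j'))
      exact ⟨s, fun _ => hs, fun a x ha => hs0 a x fun j => (p j).hi b a x ha⟩
    · obtain ⟨j⟩ := hne
      exact ⟨(p j).s b, fun h => absurd h hb, fun a x ha => (p j).hi b a x ha⟩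
  choose s hs hs0 using h1
  refine ⟨⟨c, ⋂ j, (p j).Z, hU J (hJ.trans_le hmk) _ fun j => (p j).hZ, s, ?_, ?_⟩, ?_⟩
  · intro b hb a x hab
    exact hc0 a x fun j => (p j).lo b (Set.mem_iInter.1 hb j) a x hab
  · intro b a x hab
    exact hs0 b a x hab
  · intro j
    exact ⟨hc j, Set.iInter_subset _ j, fun b hb => hs b hb j⟩

theorem Par.ptClosed (j : I) : SeqClosed (Q.mu j) (Pt (Q.mu j) (Q.ka j) (Q.U j)) :=
  Pt.seqClosed (Q.mu_reg j) (Q.mu_lt_ka j).le (Q.comp j)

/-- The union of two conditions (the first one is extended). -/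
def Par.join (j : I) (c s : Co (Q.mu j) (Q.ka j)) : Co (Q.mu j) (Q.ka j) where
  f a x := (c.f a x).or (s.f a x)
  small := by
    have h1 : {z : (Q.ka j).ord.ToType × (Q.mu j).ord.ToType | (c.f z.1 z.2).or (s.f z.1 z.2) ≠ none} ⊆
        {z | c.f z.1 z.2 ≠ none} ∪ {z | s.f z.1 z.2 ≠ none} := by
      intro z hz
      by_contra hcon
      simp only [Set.mem_union, Set.mem_ofPred_eq, not_or, not_not] at hcon
      apply hz
      rw [hcon.1, hcon.2]
      rfl
    refine lt_of_le_of_lt (Cardinal.mk_le_mk_of_subset h1) ?_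
    exact (Cardinal.mk_union_le _ _).trans_lt (Cardinal.add_lt_of_lt (Q.aleph0_le_mu j) c.small s.small)
  reg := by
    intro a x b h
    rcases hc : c.f a x with _ | d
    · rw [hc] at h
      exact s.reg a x b h
    · rw [hc] at h
      exact c.reg a x b (hc.trans h)

theorem Par.join_le_left (j : I) (c s : Co (Q.mu j) (Q.ka j)) : Q.join j c s ≤ c := by
  intro a x b h
  show (c.f a x).or (s.f a x) = some b
  rw [h]
  rfl

theorem Par.join_le_right (j : I) (c s : Co (Q.mu j) (Q.ka j)) (b : (Q.ka j).ord.ToType)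
    (hc : ∀ a x, b ≤ a → c.f a x = none) (hs : ∀ a x, a < b → s.f a x = none) :
    Q.join j c s ≤ s := by
  intro a x d h
  have h1 : ¬ a < b := by
    intro h2
    rw [hs a x h2] at h
    exact absurd h (by simp)
  show (c.f a x).or (s.f a x) = some d
  rw [hc a x (not_lt.1 h1), h]
  rfl

theorem Par.le_join (j : I) {r c s : Co (Q.mu j) (Q.ka j)} (hc : r ≤ c) (hs : r ≤ s) :
    r ≤ Q.join j c s := by
  intro a x b h
  have h' : (c.f a x).or (s.f a x) = some b := h
  rcases hd : c.f a x with _ | d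
  · rw [hd] at h'
    exact hs a x b h'
  · rw [hd] at h'
    exact hc a x b (hd.trans h')

/-- The condition of the forcing given by `y`. -/
def Par.base (y : Q.Ex) : Q.Cd := fun i => (y i).c

/-- The condition given by `y` and the point `b` in the coordinate `j`. -/
noncomputable def Par.pt (y : Q.Ex) (j : I) (b : (Q.ka j).ord.ToType) : Q.Cd :=
  Function.update (Q.base y) j (Q.join j (y j).c ((y j).s b))

/-- The combined condition `y` decides, in the way `h`, which points belong to the named subset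
`N` of the union of the measurable cardinals. -/
def Par.Dec (N : (Σ j, (Q.ka j).ord.ToType) → Set Q.Cd) (h : I → Bool) : Set Q.Ex :=
  {y | ∀ j, ∀ b ∈ (y j).Z, (h j = true → Q.pt y j b ∈ meets (N ⟨j, b⟩)) ∧
    (h j = false → Q.pt y j b ∈ fnot (meets (N ⟨j, b⟩)))}

/-- No function from a smaller cardinal onto `ν`. -/
def StaysCardinal (P : Type) [Preorder P] (ν : Cardinal.{0}) : Set P :=
  fall fun μ : Cardinal.{0} => fall fun _ : μ < ν =>
    fnot (fex fun R : μ.out → ν.out → Set P => fand (IsFun R) (IsOnto R))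

end Pool.Agent.W931.LC
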