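import Mathlib
import Pool.Agent.W931.LC.Defs
import Pool.Agent.Helper669.Easton

set_option autoImplicit false

/-!
# A product of Levy collapses below measurable cardinals: the statements to be proved
-/

namespace Pool.Agent.W931.LC

open Cardinal Pool.Agent.Helper669.Forcing Pool.Agent.Helper669.K Pool.Agent.Helper669.U
  Pool.Agent.Helper669.V Pool.Agent.W931.KH

/-- The generalized continuum hypothesis. -/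
def GCH : Prop := ∀ ν : Cardinal.{0}, ℵ₀ ≤ ν → (2 : Cardinal.{0}) ^ ν = Order.succ ν

/-- The coordinates `≤ j` of `b` and the other coordinates of `q`. -/
noncomputable def Par.mix (Q : Par) (j : I) (b q : Q.Cd) : Q.Cd := fun i => if i ≤ j then b i else q i

/-- The coordinates `< j` of `b` and the other coordinates of `q`. -/
noncomputable def Par.mix' (Q : Par) (j : I) (b q : Q.Cd) : Q.Cd := fun i => if i < j then b i else q i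

def S_CC : Prop := ∀ (Q : Par) (j : I) (A : Set (∀ i : Set.Iic j, Co (Q.mu i) (Q.ka i))),
  (∀ a ∈ A, ∀ b ∈ A, Pool.Agent.Helper669.GBase.Compat a b → a = b) → #A < Q.ka j

def S_CARD1 : Prop := GCH → ∀ (Q : Par) (j : I), #(∀ i : Set.Iic j, Co (Q.mu i) (Q.ka i)) ≤ Q.ka j

def S_CARD2 : Prop := GCH → ∀ (Q : Par) (j : I),
  #(∀ i : Set.Iio j, Co (Q.mu i) (Q.ka i)) ≤ Order.succ (Q.lam j)

def S_CARD3 : Prop := GCH → ∀ (Q : Par), #Q.Cd ≤ Order.succ Q.top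

def S_FUS : Prop := ∀ (Q : Par) (L : I → Type), (∀ i, #(L i) ≤ Q.ka i) →
  ∀ D : ∀ i, L i → Set Q.Cd, (∀ i x, Down (D i x)) → (∀ i x, ∀ p, ∃ q ≤ p, q ∈ D i x) →
  ∀ p : Q.Cd, ∃ q ≤ p, ∀ i x, ∀ b : Q.Cd, ∃ b' ≤ b, Q.mix i b' q ∈ D i x

def S_DEC2 : Prop := GCH → ∀ (Q : Par) (j : I) (L : Type), #L < Q.mu j →
  ∀ D : L → Set Q.Cd, (∀ x, Down (D x)) → (∀ x, ∀ p, ∃ q ≤ p, q ∈ D x) →
  ∀ p : Q.Cd, ∃ q ≤ p, ∀ x, ∀ b : Q.Cd, ∃ b' ≤ b, Q.mix' j b' q ∈ D x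

def S_REG1 : Prop := ∀ (Q : Par) (j : I) (p : Q.Cd), p ∈ StaysRegular Q.Cd (Q.ka j)

def S_REG2 : Prop := GCH → ∀ (Q : Par) (j : I) (ρ : Cardinal.{0}), ρ.IsRegular →
  Order.succ (Q.lam j) < ρ → ρ ≤ Q.mu j → ∀ p : Q.Cd, p ∈ StaysRegular Q.Cd ρ

def S_REG3 : Prop := GCH → ∀ (Q : Par) (j : I) (p : Q.Cd),
  p ∈ StaysRegular Q.Cd (Order.succ (Q.lam j))

def S_REG4 : Prop := GCH → ∀ (Q : Par) (p : Q.Cd), p ∈ StaysRegular Q.Cd (Order.succ Q.top)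

def S_REG5 : Prop := GCH → ∀ (Q : Par) (ρ : Cardinal.{0}), ρ.IsRegular → Order.succ Q.top < ρ →
  ∀ p : Q.Cd, p ∈ StaysRegular Q.Cd ρ

def S_REG6 : Prop := ∀ (Q : Par) (ρ : Cardinal.{0}), ρ.IsRegular → (∀ j, ρ ≤ Q.mu j) →
  ∀ p : Q.Cd, p ∈ StaysRegular Q.Cd ρ

/-- The infinite cardinals below `top` which remain cardinals. -/
def Par.S (Q : Par) : Set Cardinal.{0} :=
  {ν | ℵ₀ ≤ ν ∧ ν < Q.top ∧ ∀ j, ν ≤ Q.mu j ∨ Q.ka j ≤ ν}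

def S_REG : Prop := GCH → ∀ (Q : Par) (ρ : Cardinal.{0}), ρ.IsRegular →
  (∀ j, ρ ≤ Q.mu j ∨ Q.ka j ≤ ρ) → ∀ p : Q.Cd, p ∈ StaysRegular Q.Cd ρ

def S_STAY : Prop := GCH → ∀ (Q : Par) (ν : Cardinal.{0}), ν ∈ Q.S →
  ∀ p : Q.Cd, p ∈ StaysCardinal Q.Cd ν

def S_ALEPH : Prop := ∀ Q : Par, Nonempty (Q.S ≃o I)

def S_COL : Prop := ∀ (Q : Par) (j : I) (p : Q.Cd), p ∈ CollapsedTo Q.Cd (Q.mu j) (Q.ka j)

def S_POW1 : Prop := GCH → ∀ (Q : Par) (j : I) (ν : Cardinal.{0}), Q.mu j ≤ ν → ν < Q.ka j →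
  ∀ p : Q.Cd, p ∈ PowOnto Q.Cd ν (Q.ka j)

def S_POW2 : Prop := GCH → ∀ (Q : Par) (j : I) (ν : Cardinal.{0}), Order.succ (Q.lam j) ≤ ν →
  ν < Q.mu j → ∀ p : Q.Cd, p ∈ PowOnto Q.Cd ν (Order.succ ν)

def S_POW3 : Prop := GCH → ∀ (Q : Par) (j : I) (p : Q.Cd),
  p ∈ PowOnto Q.Cd (Q.lam j) (Order.succ (Q.lam j))

def S_POW4 : Prop := GCH → ∀ (Q : Par) (p : Q.Cd), p ∈ PowOnto Q.Cd Q.top (Order.succ Q.top)

def S_POW5 : Prop := GCH → ∀ (Q : Par) (ν : Cardinal.{0}), Order.succ Q.top ≤ ν →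
  ∀ p : Q.Cd, p ∈ PowOnto Q.Cd ν (Order.succ ν)

def S_POW6 : Prop := GCH → ∀ (Q : Par) (ν : Cardinal.{0}), ℵ₀ ≤ ν → (∀ j, ν < Q.mu j) →
  ∀ p : Q.Cd, p ∈ PowOnto Q.Cd ν (Order.succ ν)

def S_GCH : Prop := GCH → ∀ (Q : Par) (p : Q.Cd), p ∈ ForcesGCH Q.Cd

def S_DENSE : Prop := ∀ (Q : Par) (N : (Σ j, (Q.ka j).ord.ToType) → Set Q.Cd) (y : Q.Ex),
  ∃ y' ≤ y, ∃ h, y' ∈ Q.Dec N h

def S_CORE : Prop := GCH → ∀ (Q : Par) (K : Type) [LinearOrder K],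
  (∀ A : Set K, #A ≤ Q.top → ∃ b, ∀ a ∈ A, a < b) →
  ∀ Dc : K → (I → Bool) → Set Q.Ex, (∀ α h, Down (Dc α h)) →
  (∀ α, ∀ y, ∃ y' ≤ y, ∃ h, y' ∈ Dc α h) →
  ∀ y : Q.Ex, ∃ y' ≤ y, ∃ h, ∃ A : Set K, Q.top ≤ #A ∧ ∀ α ∈ A, y' ∈ Dc α h

def S_POL : Prop := GCH → ∀ (Q : Par) (p : Q.Cd), p ∈ PolarizedRel Q.Cd Q.top.ord.ToType
  (Order.succ Q.top).ord.ToType Q.top.ord.ToType

end Pool.Agent.W931.LC
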