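import Mathlib
import Pool.Agent.W931.LC.Props

set_option autoImplicit false

/-!
# The combinatorial core
-/

namespace Pool.Agent.W931.LC

open Cardinal Pool.Agent.Helper669.Forcing Pool.Agent.Helper669.K Pool.Agent.Helper669.U
  Pool.Agent.Helper669.V Pool.Agent.W931.KH
open Pool.Agent.Helper669.KDelta (rec_choice)

/-- A recursion with lower bounds and additional data. -/
theorem exists_seq {χ : Cardinal.{0}} {R : Type} [Preorder R]
    (h : SeqClosed χ R) {N : Type} [LinearOrder N] [WellFoundedLT N] (hN : #N < χ) {β : Type}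
    [Nonempty β] (T : N → (N → β) → R → β → Prop)
    (hloc : ∀ n g g' q d, (∀ m, m < n → g m = g' m) → T n g q d → T n g' q d) (q : R)
    (hstep : ∀ n (g : N → β) (q' : R), q' ≤ q → ∃ q'' ≤ q', ∃ d, T n g q'' d) :
    ∃ (f : N → R) (g : N → β), (∀ m n, m ≤ n → f n ≤ f m) ∧ (∀ n, f n ≤ q) ∧
      ∀ n, T n g (f n) (g n) := by
  classical
  have hq0 : Nonempty ({p : R // p ≤ q} × β) := ⟨⟨⟨q, le_rfl⟩, Classical.arbitrary β⟩⟩
  have hwf : WellFounded (fun a b : N => a < b) := wellFounded_lt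
  obtain ⟨f, hf⟩ := rec_choice (ι := N) (β := {p : R // p ≤ q} × β) (r := (· < ·)) hwf
    (fun n f b => (∀ m, m < n → b.1.1 ≤ (f m).1.1) ∧ T n (fun m => (f m).2) b.1.1 b.2)
    (by
      intro i f g b hfg h1
      refine ⟨fun m hm => ?_, ?_⟩
      · rw [← hfg m hm]
        exact h1.1 m hm
      · exact hloc i _ _ _ _ (fun m hm => by rw [hfg m hm]) h1.2)
    (by
      intro n f hf
      rcases isEmpty_or_nonempty (Set.Iio n) with hE | hne
      · obtain ⟨q', hq', d, hD⟩ := hstep n (fun m => (f m).2) q le_rfl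
        exact ⟨⟨⟨q', hq'⟩, d⟩, fun m hm => (hE.false ⟨m, hm⟩).elim, hD⟩
      · obtain ⟨q1, hq1⟩ := h (Set.Iio n) hne ((Cardinal.mk_set_le _).trans_lt hN)
          (fun m => (f m.1).1.1) (by
            intro j j' hjj
            rcases eq_or_lt_of_le hjj with rfl | hlt
            · exact le_rfl
            · exact (hf j'.1 j'.2).1 j.1 hlt)
        obtain ⟨m0⟩ := hne
        obtain ⟨q2, hq2, d, hD⟩ := hstep n (fun m => (f m).2) q1 ((hq1 m0).trans (f m0.1).1.2)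
        exact ⟨⟨⟨q2, hq2.trans ((hq1 m0).trans (f m0.1).1.2)⟩, d⟩,
          fun m hm => hq2.trans (hq1 ⟨m, hm⟩), hD⟩)
  refine ⟨fun n => (f n).1.1, fun n => (f n).2, ?_, fun n => (f n).1.2, fun n => (hf n).2⟩
  intro m n hmn
  rcases eq_or_lt_of_le hmn with rfl | hlt
  · exact le_rfl
  · exact (hf n).1 m hlt

/-- Meeting few sets which are dense below a condition. -/
theorem exists_forall_mem' {χ : Cardinal.{0}} {P : Type} [Preorder P]
    (h : SeqClosed χ P) {N : Type} (hN : #N < χ) (D : N → Set P) (hdown : ∀ i, Down (D i))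
    (q0 : P) (hdense : ∀ i, ∀ q ≤ q0, ∃ q' ≤ q, q' ∈ D i) : ∃ q' ≤ q0, ∀ i, q' ∈ D i := by
  classical
  obtain ⟨q', hq', h1⟩ := h.exists_forall_mem hN (fun i => D i ∪ {r | ∀ r' ≤ r, ¬ r' ≤ q0})
    (by
      intro i r hr r' hr'
      rcases hr with hr | hr
      · exact Or.inl (hdown i r hr r' hr')
      · exact Or.inr fun r'' hr'' => hr r'' (hr''.trans hr'))
    (by
      intro i q
      by_cases hq : ∃ r ≤ q, r ≤ q0
      · obtain ⟨r, hr, hr0⟩ := hq
        obtain ⟨r', hr', hD⟩ := hdense i r hr0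
        exact ⟨r', hr'.trans hr, Or.inl hD⟩
      · push Not at hq
        exact ⟨q, le_rfl, Or.inr hq⟩) q0
  refine ⟨q', hq', fun i => ?_⟩
  rcases h1 i with h2 | h2
  · exact h2
  · exact absurd hq' (h2 q' le_rfl)

variable (Q : Par)

theorem Par.exClosed {A : Set I} {χ : Cardinal.{0}} (h : ∀ j ∈ A, χ ≤ Q.mu j) :
    SeqClosed χ (∀ j : A, Pt (Q.mu j) (Q.ka j) (Q.U j)) := by
  intro J _ hne hJ p hp
  have h1 : ∀ j : A, ∃ q : Pt (Q.mu j) (Q.ka j) (Q.U j), ∀ i, q ≤ p i j := fun j =>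
    Q.ptClosed j J hne (hJ.trans_le (h j j.2)) (fun i => p i j) (fun i i' hi => hp i i' hi j)
  choose q hq using h1
  exact ⟨q, fun i j => hq j i⟩

theorem Par.exClosed' {χ : Cardinal.{0}} (h : ∀ j, χ ≤ Q.mu j) : SeqClosed χ Q.Ex := by
  intro J _ hne hJ p hp
  have h1 : ∀ j : I, ∃ q : Pt (Q.mu j) (Q.ka j) (Q.U j), ∀ i, q ≤ p i j := fun j =>
    Q.ptClosed j J hne (hJ.trans_le (h j)) (fun i => p i j) (fun i i' hi => hp i i' hi j)
  choose q hq using h1
  exact ⟨q, fun i j => hq j i⟩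

theorem mk_Co_le {mu ka : Cardinal.{0}} (h0 : ℵ₀ ≤ ka) (hm : mu ≤ ka) : #(Co mu ka) ≤ 2 ^ ka := by
  have h1 : #(Co mu ka) ≤ #(ka.ord.ToType → mu.ord.ToType → Option ka.ord.ToType) := by
    refine Cardinal.mk_le_of_injective (f := fun c => c.f) ?_
    intro c c' h
    exact Co.ext h
  refine h1.trans ?_
  have h2 : #(Option ka.ord.ToType) ≤ 2 ^ ka := by
    rw [Cardinal.mk_option, mk_ord_toType]
    exact (Cardinal.add_le_of_le h0 le_rfl (one_lt_aleph0.le.trans h0)).trans (Cardinal.cantor _).le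
  calc #(ka.ord.ToType → mu.ord.ToType → Option ka.ord.ToType)
      = (#(Option ka.ord.ToType) ^ mu) ^ ka := by
        rw [← Cardinal.power_def, ← Cardinal.power_def, mk_ord_toType, mk_ord_toType]
    _ ≤ ((2 ^ ka) ^ ka) ^ ka := by
        refine Cardinal.power_le_power_right ?_
        refine (Cardinal.power_le_power_right h2).trans ?_
        exact Cardinal.power_le_power_left (Cardinal.power_ne_zero _ two_ne_zero) hm
    _ = 2 ^ ka := by
        rw [← Cardinal.power_mul, ← Cardinal.power_mul, Cardinal.mul_eq_self h0,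
          Cardinal.mul_eq_self h0]

theorem mk_Pt_le {mu ka : Cardinal.{0}} {U : Ultrafilter ka.ord.ToType} (h0 : ℵ₀ ≤ ka)
    (hm : mu ≤ ka) : #(Pt mu ka U) ≤ 2 ^ ka := by
  have h1 : #(Pt mu ka U) ≤ #(Co mu ka × Set ka.ord.ToType × (ka.ord.ToType → Co mu ka)) := by
    refine Cardinal.mk_le_of_injective (f := fun p => (p.c, p.Z, p.s)) ?_
    rintro ⟨c, Z, hZ, s, lo, hi⟩ ⟨c', Z', hZ', s', lo', hi'⟩ h
    simp only [Prod.mk.injEq] at h
    obtain ⟨rfl, rfl, rfl⟩ := h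
    rfl
  refine h1.trans ?_
  have h2 : ℵ₀ ≤ (2 : Cardinal.{0}) ^ ka := h0.trans (Cardinal.cantor _).le
  rw [← Cardinal.mul_def, ← Cardinal.mul_def, ← Cardinal.power_def, Cardinal.mk_set, mk_ord_toType]
  have h3 : #(Co mu ka) ^ ka ≤ 2 ^ ka := by
    calc #(Co mu ka) ^ ka ≤ (2 ^ ka) ^ ka := Cardinal.power_le_power_right (mk_Co_le h0 hm)
      _ = 2 ^ ka := by rw [← Cardinal.power_mul, Cardinal.mul_eq_self h0]
  calc #(Co mu ka) * (2 ^ ka * #(Co mu ka) ^ ka) ≤ 2 ^ ka * (2 ^ ka * 2 ^ ka) :=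
        mul_le_mul' (mk_Co_le h0 hm) (mul_le_mul' le_rfl h3)
    _ = 2 ^ ka := by rw [Cardinal.mul_eq_self h2, Cardinal.mul_eq_self h2]

theorem Par.mk_lower_le (hG : GCH) (i : I) :
    #(∀ j : Set.Iic i, Pt (Q.mu j) (Q.ka j) (Q.U j)) ≤ Order.succ (Q.ka i) := by
  have h0 : ℵ₀ ≤ Q.ka i := (Q.unc i).le
  rw [← hG _ h0, Cardinal.mk_pi]
  have h1 : #(Set.Iic i) ≤ Q.ka i := by
    refine (Cardinal.mk_set_le _).trans ?_
    rw [mk_ord_toType]
    exact (Q.aleph1_lt_ka i).le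
  calc Cardinal.prod (fun j : Set.Iic i => #(Pt (Q.mu j) (Q.ka j) (Q.U j)))
      ≤ Cardinal.prod (fun _ : Set.Iic i => 2 ^ Q.ka i) := by
        refine Cardinal.prod_le_prod _ _ fun j => ?_
        refine (mk_Pt_le (Q.unc j).le (Q.mu_lt_ka j).le).trans ?_
        exact Cardinal.power_le_power_left two_ne_zero (Q.mono.monotone j.2)
    _ = (2 ^ Q.ka i) ^ #(Set.Iic i) := Cardinal.prod_const' _ _
    _ ≤ (2 ^ Q.ka i) ^ Q.ka i :=
        Cardinal.power_le_power_left (Cardinal.power_ne_zero _ two_ne_zero) h1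
    _ = 2 ^ Q.ka i := by rw [← Cardinal.power_mul, Cardinal.mul_eq_self h0]

/-- The combination of a lower part and a tail. -/
noncomputable def Par.comb (i : I) (z : ∀ j : Set.Iic i, Pt (Q.mu j) (Q.ka j) (Q.U j))
    (t : ∀ j : Set.Ioi i, Pt (Q.mu j) (Q.ka j) (Q.U j)) : Q.Ex :=
  fun j => if h : j ≤ i then z ⟨j, h⟩ else t ⟨j, not_le.1 h⟩

theorem Par.comb_mono (i : I) {z z' : ∀ j : Set.Iic i, Pt (Q.mu j) (Q.ka j) (Q.U j)}
    {t t' : ∀ j : Set.Ioi i, Pt (Q.mu j) (Q.ka j) (Q.U j)} (hz : z' ≤ z) (ht : t' ≤ t) :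
    Q.comb i z' t' ≤ Q.comb i z t := by
  intro j
  unfold Par.comb
  by_cases h : j ≤ i
  · rw [dif_pos h, dif_pos h]
    exact hz ⟨j, h⟩
  · rw [dif_neg h, dif_neg h]
    exact ht ⟨j, not_le.1 h⟩

theorem Par.comb_eq (i : I) (y : Q.Ex) : Q.comb i (fun j => y j) (fun j => y j) = y := by
  funext j
  unfold Par.comb
  by_cases h : j ≤ i
  · rw [dif_pos h]
  · rw [dif_neg h]

/-- The central step. -/
theorem Par.step (hG : GCH) {K : Type} [LinearOrder K]
    (hK : ∀ A : Set K, #A ≤ Q.top → ∃ b, ∀ a ∈ A, a < b)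
    (Dc : K → Set Q.Ex) (hDc : ∀ α, Down (Dc α)) (ys : Q.Ex)
    (H : ∀ y ≤ ys, ∀ γ : K, ∃ α, γ < α ∧ ∃ y' ≤ y, y' ∈ Dc α) (i : I) (y : Q.Ex) (hy : y ≤ ys) :
    ∃ y' ≤ y, ∃ A : Set K, Q.ka i ≤ #A ∧ ∀ α ∈ A, y' ∈ Dc α := by
  classical
  have h0 : ℵ₀ ≤ Q.ka i := (Q.unc i).le
  set θ : Cardinal.{0} := Order.succ (Order.succ (Q.ka i)) with hθ
  have hθ0 : ℵ₀ ≤ θ := h0.trans ((Order.le_succ _).trans (Order.le_succ _))
  have hθr : θ.IsRegular := Cardinal.isRegular_succ (h0.trans (Order.le_succ _))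
  have hθtop : θ ≤ Q.top := by
    obtain ⟨j, hj⟩ := exists_gt_I i
    have h1 : θ < Q.mu j := by
      have h2 : Order.succ (Order.succ (Q.ka i)) ≤ Order.succ (Order.succ (Q.lam j)) :=
        Order.succ_le_succ (Order.succ_le_succ (Q.ka_le_lam hj))
      exact h2.trans_lt (Order.lt_succ _)
    exact (h1.trans ((Q.mu_lt_ka j).trans (Q.ka_lt_top j))).le
  let z0 : ∀ j : Set.Iic i, Pt (Q.mu j) (Q.ka j) (Q.U j) := fun j => y j
  let t0 : ∀ j : Set.Ioi i, Pt (Q.mu j) (Q.ka j) (Q.U j) := fun j => y j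
  have hy0 : Q.comb i z0 t0 = y := Q.comb_eq i y
  have hcl : SeqClosed (Order.succ θ) (∀ j : Set.Ioi i, Pt (Q.mu j) (Q.ka j) (Q.U j)) := by
    refine Q.exClosed fun j hj => ?_
    exact Order.succ_le_succ (Order.succ_le_succ (Order.succ_le_succ (Q.ka_le_lam hj)))
  have hNe : Nonempty K := by
    obtain ⟨b, _⟩ := hK ∅ (by simp)
    exact ⟨b⟩
  have hNe' : Nonempty (K × (∀ j : Set.Iic i, Pt (Q.mu j) (Q.ka j) (Q.U j))) :=
    ⟨(hNe.some, z0)⟩
  have hN : #(θ.ord.ToType) < Order.succ θ := by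
    rw [mk_ord_toType]
    exact Order.lt_succ _
  obtain ⟨f, g, hf, hft, hT⟩ := exists_seq hcl (N := θ.ord.ToType) hN
    (β := K × (∀ j : Set.Iic i, Pt (Q.mu j) (Q.ka j) (Q.U j)))
    (T := fun n g t d => (∀ m, m < n → (g m).1 < d.1) ∧ d.2 ≤ z0 ∧ Q.comb i d.2 t ∈ Dc d.1)
    (by
      intro n g g' q d hgg hd
      refine ⟨fun m hm => ?_, hd.2⟩
      rw [← hgg m hm]
      exact hd.1 m hm) t0
    (by
      intro n g t ht
      obtain ⟨γ, hγ⟩ := hK ((fun m => (g m).1) '' Set.Iio n) (by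
        refine Cardinal.mk_image_le.trans ((Cardinal.mk_set_le _).trans ?_)
        rw [mk_ord_toType]
        exact hθtop)
      have h1 : Q.comb i z0 t ≤ ys := by
        refine le_trans (Q.comb_mono i le_rfl ht) ?_
        rw [hy0]
        exact hy
      obtain ⟨α, hα, y', hy', hD⟩ := H _ h1 γ
      have h2 : ∀ j, y' j ≤ Q.comb i z0 t j := hy'
      refine ⟨fun j => y' j, ?_, (α, fun j => y' j), ?_, ?_, ?_⟩
      · intro j
        have h3 := h2 j.1
        unfold Par.comb at h3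
        rw [dif_neg (not_le.2 j.2)] at h3
        exact h3
      · intro m hm
        exact (hγ _ ⟨m, hm, rfl⟩).trans hα
      · intro j
        have h3 := h2 j.1
        unfold Par.comb at h3
        rw [dif_pos (show j.1 ≤ i from j.2)] at h3
        exact h3
      · show Q.comb i (fun j => y' j) (fun j => y' j) ∈ Dc α
        rw [Q.comb_eq i y']
        exact hD)
  -- the pigeonhole principle
  obtain ⟨z, hz⟩ := Cardinal.infinite_pigeonhole_card (fun n => (g n).2) θ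
    (by rw [mk_ord_toType]) hθ0 (by
      rw [hθr.cof_ord]
      exact (Q.mk_lower_le hG i).trans_lt (Order.lt_succ _))
  have hne : Nonempty θ.ord.ToType := by
    rw [← Cardinal.mk_ne_zero_iff, mk_ord_toType]
    exact (aleph0_pos.trans_le hθ0).ne'
  obtain ⟨t, ht⟩ := hcl θ.ord.ToType hne hN f hf
  have hz0 : z ≤ z0 := by
    have h1 : Nonempty ((fun n => (g n).2) ⁻¹' {z}) := by
      rw [← Cardinal.mk_ne_zero_iff]
      exact (aleph0_pos.trans_le (hθ0.trans hz)).ne'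
    obtain ⟨n, hn⟩ := h1
    have h2 : (g n).2 = z := hn
    rw [← h2]
    exact (hT n).2.1
  refine ⟨Q.comb i z t, ?_, (fun n => (g n).1) '' ((fun n => (g n).2) ⁻¹' {z}), ?_, ?_⟩
  · obtain ⟨n⟩ := hne
    calc Q.comb i z t ≤ Q.comb i z0 t0 := Q.comb_mono i hz0 ((ht n).trans (hft n))
      _ = y := hy0
  · rw [Cardinal.mk_image_eq_of_injOn]
    · exact ((Order.le_succ _).trans (Order.le_succ _)).trans hz
    · intro m _ n _ hmn
      have hmn' : (g m).1 = (g n).1 := hmn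
      rcases lt_trichotomy m n with h | h | h
      · exact absurd ((hT n).1 m h) (by rw [hmn']; exact lt_irrefl _)
      · exact h
      · exact absurd ((hT m).1 n h) (by rw [hmn']; exact lt_irrefl _)
  · rintro _ ⟨n, hn, rfl⟩
    have h2 : (g n).2 = z := hn
    have h3 := (hT n).2.2
    rw [h2] at h3
    exact hDc _ _ h3 _ (Q.comb_mono i le_rfl (ht n))

theorem tCORE : S_CORE := by
  classical
  intro hG Q K _ hK Dc hDc hdense y0
  have hχ : ∀ j, Order.succ (Order.succ (Order.succ ℵ₁)) ≤ Q.mu j := fun j =>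
    Order.succ_le_succ (Order.succ_le_succ (Order.succ_le_succ (Q.lam_ge j)))
  have hcl := Q.exClosed' hχ
  have hIB : #(I → Bool) = Order.succ ℵ₁ := by
    rw [← Cardinal.power_def, mk_ord_toType, Cardinal.mk_bool, hG _ (aleph0_le_aleph 1)]
  have htop : Order.succ (ℵ₁ : Cardinal.{0}) ≤ Q.top := by
    obtain ⟨j0⟩ : Nonempty I := by
      rw [← Cardinal.mk_ne_zero_iff, mk_ord_toType]
      exact (aleph0_pos.trans_le (aleph0_le_aleph 1)).ne'
    exact (Order.succ_le_of_lt (Q.aleph1_lt_ka j0)).trans (Q.ka_le_top j0)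
  -- the choice of `h`
  obtain ⟨h, ys, hys, H⟩ : ∃ h : I → Bool, ∃ ys ≤ y0, ∀ y ≤ ys, ∀ γ : K, ∃ α, γ < α ∧
      ∃ y' ≤ y, y' ∈ Dc α h := by
    by_contra hcon
    push Not at hcon
    obtain ⟨y1, hy1, h1⟩ := exists_forall_mem' hcl (N := I → Bool) (by
        rw [hIB]
        exact (Order.lt_succ _).trans (Order.lt_succ _))
      (fun h => {y | ∃ γ : K, ∀ α, γ < α → ∀ y' ≤ y, y' ∉ Dc α h})
      (by
        rintro h r ⟨γ, hγ⟩ r' hr'
        exact ⟨γ, fun α hα y' hy' => hγ α hα y' (hy'.trans hr')⟩) y0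
      (by
        intro h q hq
        obtain ⟨y, hy, γ, hγ⟩ := hcon h q hq
        exact ⟨y, hy, γ, hγ⟩)
    choose γ hγ using h1
    obtain ⟨b, hb⟩ := hK (Set.range γ) (by
      refine Cardinal.mk_range_le.trans ?_
      rw [hIB]
      exact htop)
    obtain ⟨y', hy', h, hD⟩ := hdense b y1
    exact hγ h b (hb _ ⟨h, rfl⟩) y' hy' hD
  -- the choice of the set
  obtain ⟨y1, hy1, h1⟩ := exists_forall_mem' hcl (N := I) (by
      rw [mk_ord_toType]
      exact (Order.lt_succ _).trans ((Order.lt_succ _).trans (Order.lt_succ _)))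
    (fun i => {y | ∃ A : Set K, Q.ka i ≤ #A ∧ ∀ α ∈ A, y ∈ Dc α h})
    (by
      rintro i r ⟨A, hA, hA'⟩ r' hr'
      exact ⟨A, hA, fun α hα => hDc α h r (hA' α hα) r' hr'⟩) ys
    (by
      intro i q hq
      obtain ⟨y', hy', A, hA, hA'⟩ := Q.step hG hK (fun α => Dc α h) (fun α => hDc α h) ys H i q hq
      exact ⟨y', hy', A, hA, hA'⟩)
  choose A hA hA' using h1
  refine ⟨y1, hy1.trans hys, h, ⋃ i, A i, ?_, ?_⟩
  · refine ciSup_le' fun i => (hA i).trans ?_
    exact Cardinal.mk_le_mk_of_subset (Set.subset_iUnion A i)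
  · intro α hα
    obtain ⟨i, hi⟩ := Set.mem_iUnion.1 hα
    exact hA' i α hi

end Pool.Agent.W931.LC
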