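import Mathlib
import Pool.Agent.W931.LC.Core

set_option autoImplicit false

/-!
# The polarized relation in the extension
-/

namespace Pool.Agent.W931.LC

open Cardinal Pool.Agent.Helper669.Forcing Pool.Agent.Helper669.K Pool.Agent.Helper669.U
  Pool.Agent.Helper669.V Pool.Agent.W931.KH

variable (Q : Par)

theorem Par.pt_le_base (y : Q.Ex) (j : I) (b : (Q.ka j).ord.ToType) : Q.pt y j b ≤ Q.base y := by
  classical
  intro i
  unfold Par.pt
  by_cases h : i = j
  · subst h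
    rw [Function.update_self]
    exact Q.join_le_left i _ _
  · rw [Function.update_of_ne h]

/-- `pt y j b` is the greatest lower bound of `base y` and `s b`. -/
theorem Par.le_pt {y : Q.Ex} {j : I} {b : (Q.ka j).ord.ToType} {r : Q.Cd}
    (h1 : r ≤ Q.base y) (h2 : r j ≤ (y j).s b) : r ≤ Q.pt y j b := by
  classical
  intro i
  unfold Par.pt
  by_cases h : i = j
  · subst h
    rw [Function.update_self]
    exact Q.le_join i (h1 i) h2
  · rw [Function.update_of_ne h]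
    exact h1 i

theorem Par.pt_le_s {y : Q.Ex} {j : I} {b : (Q.ka j).ord.ToType} (hb : b ∈ (y j).Z) :
    Q.pt y j b j ≤ (y j).s b := by
  classical
  unfold Par.pt
  rw [Function.update_self]
  exact Q.join_le_right j _ _ b ((y j).lo b hb) (fun a x h => (y j).hi b a x h)

theorem Par.pt_mono {y y' : Q.Ex} (h : y' ≤ y) {j : I} {b : (Q.ka j).ord.ToType}
    (hb : b ∈ (y' j).Z) : Q.pt y' j b ≤ Q.pt y j b := by
  refine Q.le_pt ((Q.pt_le_base y' j b).trans fun i => (h i).1) ?_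
  exact (Q.pt_le_s hb).trans ((h j).2.2 b hb)

theorem Par.down_Dec (N : (Σ j, (Q.ka j).ord.ToType) → Set Q.Cd) (h : I → Bool) :
    Down (Q.Dec N h) := by
  intro y hy y' hy' j b hb
  have h1 := hy j b ((hy' j).2.1 hb)
  refine ⟨fun h2 => down_meets _ _ (h1.1 h2) _ (Q.pt_mono hy' hb),
    fun h2 => down_fnot _ _ (h1.2 h2) _ (Q.pt_mono hy' hb)⟩

/-- Conditions are bounded. -/
theorem Par.above (j : I) (c : Co (Q.mu j) (Q.ka j)) :
    {b | ∀ a x, b ≤ a → c.f a x = none} ∈ Q.U j := by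
  classical
  obtain ⟨b0, hb0⟩ := bdd_ord (Q.reg j)
    ((fun z : (Q.ka j).ord.ToType × (Q.mu j).ord.ToType => z.1) '' {z | c.f z.1 z.2 ≠ none})
    (Cardinal.mk_image_le.trans_lt (lt_trans c.small (Q.mu_lt_ka j)))
  refine Filter.mem_of_superset (Q.tail j b0) ?_
  intro b hb a x hab
  by_contra hcon
  have h1 := hb0 a ⟨(a, x), hcon, rfl⟩
  exact absurd (h1.trans (lt_of_lt_of_le hb hab)) (lt_irrefl _)

/-- The empty condition. -/
noncomputable def Par.emp (j : I) : Co (Q.mu j) (Q.ka j) where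
  f _ _ := none
  small := by
    have h1 : IsEmpty {z : (Q.ka j).ord.ToType × (Q.mu j).ord.ToType //
        (none : Option (Q.ka j).ord.ToType) ≠ none} := ⟨fun z => z.2 rfl⟩
    rw [Cardinal.mk_eq_zero]
    exact aleph0_pos.trans_le (Q.aleph0_le_mu j)
  reg := by
    intro a x b h
    exact absurd h (by simp)

theorem Par.sig_inj (j : I) : Function.Injective
    (fun b => (⟨j, b⟩ : Σ j, (Q.ka j).ord.ToType)) := by
  intro b b' h
  exact eq_of_heq (Sigma.mk.inj h).2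

theorem Par.mk_sigma : #(Σ j, (Q.ka j).ord.ToType) = Q.top := by
  have h0 : ℵ₀ ≤ Q.top := by
    obtain ⟨j0⟩ : Nonempty I := by
      rw [← Cardinal.mk_ne_zero_iff, mk_ord_toType]
      exact (aleph0_pos.trans_le (aleph0_le_aleph 1)).ne'
    exact (Q.unc j0).le.trans (Q.ka_le_top j0)
  have h1 : (ℵ₁ : Cardinal.{0}) ≤ Q.top := by
    obtain ⟨j0⟩ : Nonempty I := by
      rw [← Cardinal.mk_ne_zero_iff, mk_ord_toType]
      exact (aleph0_pos.trans_le (aleph0_le_aleph 1)).ne'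
    exact (Q.aleph1_lt_ka j0).le.trans (Q.ka_le_top j0)
  apply le_antisymm
  · rw [Cardinal.mk_sigma]
    calc Cardinal.sum (fun j : I => #((Q.ka j).ord.ToType)) ≤ Cardinal.sum (fun _ : I => Q.top) := by
          refine Cardinal.sum_le_sum _ _ fun j => ?_
          rw [mk_ord_toType]
          exact Q.ka_le_top j
      _ = ℵ₁ * Q.top := by rw [Cardinal.sum_const', mk_ord_toType]
      _ ≤ Q.top * Q.top := mul_le_mul' h1 le_rfl
      _ = Q.top := Cardinal.mul_eq_self h0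
  · refine ciSup_le' fun j => ?_
    have h2 : #((Q.ka j).ord.ToType) ≤ #(Σ j, (Q.ka j).ord.ToType) :=
      Cardinal.mk_le_of_injective (f := fun b => (⟨j, b⟩ : Σ j, (Q.ka j).ord.ToType))
        (Q.sig_inj j)
    rwa [mk_ord_toType] at h2

theorem mem_for'_left {P : Type} [Preorder P] {φ ψ : Set P} (hφ : Down φ) {p : P} (h : p ∈ φ) :
    p ∈ for' φ ψ := fun q hq h' => h'.1 q le_rfl (hφ p h q hq)

theorem mem_for'_right {P : Type} [Preorder P] {φ ψ : Set P} (hψ : Down ψ) {p : P} (h : p ∈ ψ) :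
    p ∈ for' φ ψ := fun q hq h' => h'.2 q le_rfl (hψ p h q hq)

theorem down_HasFullSize {P : Type} [Preorder P] {X : Type} (A : X → Set P) :
    Down (HasFullSize A) := down_fall fun _ => down_fall fun _ => down_fnot _

theorem down_SameSize {P : Type} [Preorder P] {K M : Type} (A : M → Set P) :
    Down (SameSize (K := K) A) := down_fex _

/-- A subset of the extension which is unbounded in some large `ka j` has full size. -/
theorem Par.fullSize (hR : S_REG1) {X : Type} (hX : #X ≤ Q.top) (e : ∀ j, (Q.ka j).ord.ToType → X)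
    (he : ∀ j, Function.Injective (e j)) (B : X → Set Q.Cd) (r : Q.Cd)
    (hB : ∀ ν < Q.top, ∃ j, ν < Q.ka j ∧ ∀ r' ≤ r, ∀ b, ∃ r'' ≤ r', ∃ β, b ≤ β ∧
      r'' ∈ meets (B (e j β))) : r ∈ HasFullSize B := by
  classical
  intro ν hν
  intro r1 hr1 hex
  obtain ⟨r2, hr2, R, hfun, hcov⟩ := mem_fex.1 hex r1 le_rfl
  obtain ⟨j, hj, hun⟩ := hB ν (hν.trans_le hX)
  have hne : Nonempty (Q.ka j).ord.ToType := by
    rw [← Cardinal.mk_ne_zero_iff, mk_ord_toType]
    exact (aleph0_pos.trans (Q.unc j)).ne'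
  obtain ⟨d⟩ := hne
  let R' : ν.out → (Q.ka j).ord.ToType → Set Q.Cd := fun x y =>
    {p | p ∈ meets (R x (e j y)) ∨ (y = d ∧ ∀ q ≤ p, ∀ b, q ∉ meets (R x (e j b)))}
  have hR'down : ∀ x y, Down (R' x y) := by
    intro x y p hp q hq
    rcases hp with hp | ⟨h1, hp⟩
    · exact Or.inl (down_meets _ _ hp _ hq)
    · exact Or.inr ⟨h1, fun q' hq' => hp q' (hq'.trans hq)⟩
  have hfun' : r2 ∈ IsFun R' := by
    refine ⟨?_, ?_⟩
    · intro x
      refine mem_fex.2 fun q hq => ?_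
      by_cases h : ∃ q' ≤ q, ∃ b, q' ∈ meets (R x (e j b))
      · obtain ⟨q', hq', b, hb⟩ := h
        exact ⟨q', hq', b, meets_of_mem (Or.inl hb)⟩
      · push Not at h
        exact ⟨q, le_rfl, d, meets_of_mem (Or.inr ⟨rfl, h⟩)⟩
    · intro x y y'
      refine mem_fimp.2 fun q hq h => ?_
      obtain ⟨h1, h2⟩ := h
      obtain ⟨q1, hq1, hm1⟩ := exists_of_meets (hR'down x y) h1
      obtain ⟨q2, hq2, hm2⟩ := exists_of_meets (hR'down x y') (down_meets _ _ h2 _ hq1)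
      have hm1' := hR'down x y _ hm1 _ hq2
      refine ⟨q2, hq2.trans hq1, ?_⟩
      show y = y'
      rcases hm1' with ha | ⟨ha, ha'⟩
      · rcases hm2 with hb | ⟨hb, hb'⟩
        · have hf := down_IsFun R _ hfun _ (hq2.trans (hq1.trans hq))
          exact he j (IsFun.unique hf ha hb)
        · exact absurd ha (hb' q2 le_rfl y)
      · rcases hm2 with hb | ⟨hb, hb'⟩
        · exact absurd hb (ha' q2 le_rfl y')
        · rw [ha, hb]
  have h1 := hR Q j r2 ν hj R'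
  obtain ⟨r3, hr3, h3⟩ := mem_fimp.1 h1 r2 le_rfl hfun'
  obtain ⟨r4, hr4, b, hb⟩ := mem_fex.1 h3 r3 le_rfl
  obtain ⟨r5, hr5, β, hβ, hr5B⟩ := hun r4 (hr4.trans (hr3.trans (hr2.trans hr1))) b
  obtain ⟨r6, hr6, h6⟩ := mem_fimp.1 (hcov (e j β)) r5 (hr5.trans (hr4.trans hr3)) hr5B
  obtain ⟨r7, hr7, x, hx⟩ := mem_fex.1 h6 r6 le_rfl
  obtain ⟨r8, hr8, h8⟩ := mem_fimp.1 (hb x β) r7 (hr7.trans (hr6.trans hr5))
    (meets_of_mem (Or.inl hx))
  exact absurd (lt_of_lt_of_le h8 hβ) (lt_irrefl _)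

theorem tPOL (h1 : S_DENSE) (h2 : S_REG1) : S_POL := by
  classical
  intro hG Q p0 c
  have hI0 : Nonempty I := by
    rw [← Cardinal.mk_ne_zero_iff, mk_ord_toType]
    exact (aleph0_pos.trans_le (aleph0_le_aleph 1)).ne'
  obtain ⟨j0⟩ := hI0
  have h0 : ℵ₀ ≤ Q.top := (Q.unc j0).le.trans (Q.ka_le_top j0)
  have hcard : #(Σ j, (Q.ka j).ord.ToType) = #(Q.top.ord.ToType) := by
    rw [Q.mk_sigma, mk_ord_toType]
  obtain ⟨e⟩ := Cardinal.eq.1 hcard
  refine mem_fex.2 fun q _ => ?_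
  -- the initial combined condition
  let y0 : Q.Ex := fun j => ⟨q j, {b | ∀ a x, b ≤ a → (q j).f a x = none}, Q.above j (q j),
    fun _ => Q.emp j, fun b hb a x hab => hb a x hab, fun _ _ _ _ => rfl⟩
  obtain ⟨y, hy, h, A0, hA0, hA0D⟩ := tCORE hG Q (Order.succ Q.top).ord.ToType
    (fun A hA => bdd_ord (Cardinal.isRegular_succ h0) A (Order.lt_succ_of_le hA))
    (fun α h => Q.Dec (fun jb => c (e jb) α) h) (fun α h => Q.down_Dec _ h)
    (fun α y => h1 Q (fun jb => c (e jb) α) y) y0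
  obtain ⟨A1, hA1s, hA1⟩ := Cardinal.le_mk_iff_exists_subset.1 hA0
  obtain ⟨ε, hε⟩ : ∃ ε : Bool, ∀ i : I, ∃ j, i ≤ j ∧ h j = ε := by
    by_contra hcon
    push Not at hcon
    obtain ⟨i1, hi1⟩ := hcon true
    obtain ⟨i2, hi2⟩ := hcon false
    have h3 := hi1 (max i1 i2) (le_max_left _ _)
    have h4 := hi2 (max i1 i2) (le_max_right _ _)
    cases hh : h (max i1 i2)
    · exact h4 hh
    · exact h3 hh
  let B0 : Q.top.ord.ToType → Set Q.Cd := fun m =>
    {r | ∃ j b, e ⟨j, b⟩ = m ∧ h j = ε ∧ b ∈ (y j).Z ∧ r j ≤ (y j).s b}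
  set r := Q.base y with hr
  have hrq : r ≤ q := fun j => (hy j).1
  refine ⟨r, hrq, B0, ?_⟩
  refine mem_fex_of_mem (chk A1) (down_fand (down_HasFullSize _)
    (down_fand (down_SameSize _) (down_fnot _))) ?_
  refine ⟨?_, chk_sameSize hA1 r, ?_⟩
  · -- full size
    refine Q.fullSize h2 (by rw [mk_ord_toType]) (fun j b => e ⟨j, b⟩)
      (fun j b b' hbb => Q.sig_inj j (e.injective hbb)) B0 r ?_
    intro ν hν
    obtain ⟨j1, hj1⟩ := Q.exists_lt_ka hν
    obtain ⟨j, hj, hjε⟩ := hε j1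
    refine ⟨j, hj1.trans_le (Q.mono.monotone hj), ?_⟩
    intro r' hr' b
    have hU : {β | b < β} ∩ ((y j).Z ∩ {β | ∀ a x, β ≤ a → (r' j).f a x = none}) ∈ Q.U j :=
      Filter.inter_mem (Q.tail j b) (Filter.inter_mem (y j).hZ (Q.above j (r' j)))
    obtain ⟨β, hbβ, hβZ, hβr⟩ := Filter.nonempty_of_mem hU
    refine ⟨Function.update r' j (Q.join j (r' j) ((y j).s β)), ?_, β, le_of_lt hbβ, ?_⟩
    · intro i
      by_cases hi : i = j
      · subst hi
        rw [Function.update_self]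
        exact Q.join_le_left i _ _
      · rw [Function.update_of_ne hi]
    · refine meets_of_mem ⟨j, β, rfl, hjε, hβZ, ?_⟩
      rw [Function.update_self]
      exact Q.join_le_right j _ _ β hβr (fun a x hax => (y j).hi β a x hax)
  · have key : ∀ (m : Q.top.ord.ToType) (α : (Order.succ Q.top).ord.ToType), ∀ q1 ≤ r,
        q1 ∈ meets (B0 m) → q1 ∈ meets (chk (Q := Q.Cd) A1 α) → ∃ q2 ≤ q1,
          (ε = true → q2 ∈ meets (c m α)) ∧ (ε = false → q2 ∈ fnot (meets (c m α))) := by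
      intro m α q1 hq1 hB hA
      have hα : α ∈ A1 := chk_of_meets hA
      obtain ⟨q2, hq2, s, ⟨j, b, hm, hjε, hbZ, hs⟩, hqs⟩ := hB q1 le_rfl
      have h3 : q2 ≤ Q.pt y j b := Q.le_pt (hq2.trans hq1) (le_trans (hqs j) hs)
      have h4 := hA0D α (hA1s hα) j b hbZ
      refine ⟨q2, hq2, fun hh => ?_, fun hh => ?_⟩
      · have h5 : Q.pt y j b ∈ meets (c (e ⟨j, b⟩) α) := h4.1 (hjε.trans hh)
        rw [hm] at h5
        exact down_meets _ _ h5 _ h3
      · have h5 : Q.pt y j b ∈ fnot (meets (c (e ⟨j, b⟩) α)) := h4.2 (hjε.trans hh)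
        rw [hm] at h5
        exact down_fnot _ _ h5 _ h3
    cases hεe : ε
    · refine mem_for'_right (down_fall fun _ => down_fall fun _ => down_fimp _ _) ?_
      intro m α
      refine mem_fimp.2 fun q1 hq1 hh => ?_
      obtain ⟨q2, hq2, _, h4⟩ := key m α q1 hq1 hh.1 hh.2
      exact ⟨q2, hq2, h4 hεe⟩
    · refine mem_for'_left (down_fall fun _ => down_fall fun _ => down_fimp _ _) ?_
      intro m α
      refine mem_fimp.2 fun q1 hq1 hh => ?_
      obtain ⟨q2, hq2, h4, _⟩ := key m α q1 hq1 hh.1 hh.2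
      exact ⟨q2, hq2, h4 hεe⟩

end Pool.Agent.W931.LC
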