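import Mathlib

set_option autoImplicit false

/-!
# Measurable cardinals
-/

namespace Pool.Agent.W931.LC

open Cardinal

/-- `κ` is a measurable cardinal: an uncountable cardinal with a `κ`-complete nonprincipal
ultrafilter. -/
def IsMeasurable (κ : Cardinal.{0}) : Prop :=
  ℵ₀ < κ ∧ ∃ U : Ultrafilter κ.ord.ToType,
    (∀ (ι : Type), #ι < κ → ∀ A : ι → Set κ.ord.ToType, (∀ i, A i ∈ U) → (⋂ i, A i) ∈ U) ∧
    ∀ a, {a} ∉ U

/-- `κ` is inaccessible and has a normal measure. -/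
def HasNormal (κ : Cardinal.{0}) : Prop :=
  ℵ₀ < κ ∧ κ.IsRegular ∧ (∀ ν < κ, (2 : Cardinal.{0}) ^ ν < κ) ∧
    ∃ U : Ultrafilter κ.ord.ToType,
      (∀ (ι : Type), #ι < κ → ∀ A : ι → Set κ.ord.ToType, (∀ i, A i ∈ U) → (⋂ i, A i) ∈ U) ∧
      (∀ a, {x | a < x} ∈ U) ∧
      ∀ g : κ.ord.ToType → κ.ord.ToType, {x | g x < x} ∈ U → ∃ a, {x | g x = a} ∈ U

/-- Every measurable cardinal is inaccessible and has a normal measure. -/
def S_MEAS : Prop := ∀ κ : Cardinal.{0}, IsMeasurable κ → HasNormal κ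

end Pool.Agent.W931.LC
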